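import Pool.Agent.Q54.DI.Sem

/-!
# Closures of Diophantine sets with arithmetic symmetry

Let `n ≥ 2` and let `Γ` be a subgroup of finite index of `SL_n(ℤ)`. We consider Diophantine sets
`S ⊆ ℚ^n × ℚ^k` which are invariant under the action of `Γ` on `ℚ^n`. If the set of the integers is
not Diophantine over `ℚ`, then the real closure of `S` is `ℝ^n × cl A ∪ {0} × cl B` for the
Diophantine sets `A = {t | (u, t) ∈ S for some u ≠ 0}` and `B = {t | (0, t) ∈ S}` of `ℚ^k`. So the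
semialgebraic form of the conjecture of Mazur for the sets with this symmetry is equivalent to the
one for Diophantine sets in `ℚ^k` together with the assertion that the set of the integers is not
Diophantine over `ℚ`.
-/

namespace Pool.Agent.Results.MP_42de19_nt.ArithmeticSymmetry

open Q54.DI MvPolynomial

/-- The set `S ⊆ ℚ^n × ℚ^k` is invariant under the action of `Γ` on `ℚ^n`. -/
def IsInvariant {n k : ℕ} (Γ : Subgroup (SLZ n)) (S : Set (Fin n ⊕ Fin k → ℚ)) : Prop :=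
  ∀ g ∈ Γ, ∀ (u : Fin n → ℚ) (t : Fin k → ℚ), Sum.elim u t ∈ S → Sum.elim (act ℚ g u) t ∈ S

/-- The points `t` such that `(u, t)` lies in `S` for some `u ≠ 0`. -/
def nonzeroPart {n k : ℕ} (S : Set (Fin n ⊕ Fin k → ℚ)) : Set (Fin k → ℚ) :=
  {t | ∃ u : Fin n → ℚ, u ≠ 0 ∧ Sum.elim u t ∈ S}

/-- The points `t` such that `(0, t)` lies in `S`. -/
def zeroPart {n k : ℕ} (S : Set (Fin n ⊕ Fin k → ℚ)) : Set (Fin k → ℚ) :=
  {t | Sum.elim (0 : Fin n → ℚ) t ∈ S}

lemma isDioph_fibre {n k : ℕ} {S : Set (Fin n ⊕ Fin k → ℚ)} (hS : IsDioph S) (t : Fin k → ℚ) :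
    IsDioph {u : Fin n → ℚ | Sum.elim u t ∈ S} := by
  have h := hS.preimage (κ := Fin n) (Sum.elim X fun j => C (t j))
  have e : {u : Fin n → ℚ | Sum.elim u t ∈ S} =
      {x | (fun i => eval x ((Sum.elim X fun j => C (t j) : Fin n ⊕ Fin k → MvPolynomial (Fin n) ℚ) i)) ∈ S} := by
    ext u
    have e1 : (fun i => eval u ((Sum.elim X fun j => C (t j) : Fin n ⊕ Fin k → MvPolynomial (Fin n) ℚ) i)) =
        Sum.elim u t := by
      funext i
      rcases i with i | i <;> simp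
    rw [Set.mem_ofPred_eq, Set.mem_ofPred_eq, e1]
  rw [e]
  exact h

lemma isDioph_zeroPart {n k : ℕ} {S : Set (Fin n ⊕ Fin k → ℚ)} (hS : IsDioph S) : IsDioph (zeroPart S) := by
  have h := hS.preimage (κ := Fin k) (Sum.elim (fun _ => 0) X)
  have e : zeroPart S = {x | (fun i => eval x ((Sum.elim (fun _ => 0) X : Fin n ⊕ Fin k → MvPolynomial (Fin k) ℚ) i)) ∈ S} := by
    ext x
    have e1 : (fun i => eval x ((Sum.elim (fun _ => 0) X : Fin n ⊕ Fin k → MvPolynomial (Fin k) ℚ) i)) =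
        Sum.elim (0 : Fin n → ℚ) x := by
      funext i
      rcases i with i | i <;> simp
    rw [Set.mem_ofPred_eq, e1]
    rfl
  rw [e]
  exact h

lemma isDioph_nonzeroPart {n k : ℕ} {S : Set (Fin n ⊕ Fin k → ℚ)} (hS : IsDioph S) : IsDioph (nonzeroPart S) := by
  have h1 := hS.preimage (κ := Fin k ⊕ Fin n) (Sum.elim (fun i => X (Sum.inr i)) fun j => X (Sum.inl j))
  have h2 := isDioph_ne (∑ i, X (Sum.inr i) * X (Sum.inr i) : MvPolynomial (Fin k ⊕ Fin n) ℚ)
  have h3 := (h1.inter h2).proj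
  convert h3 using 1
  ext t
  refine exists_congr fun u => ?_
  rw [Set.mem_inter_iff, Set.mem_ofPred_eq, Set.mem_ofPred_eq, and_comm]
  have e1 : (fun i => eval (Sum.elim t u) ((Sum.elim (fun i => X (Sum.inr i)) fun j => X (Sum.inl j) :
      Fin n ⊕ Fin k → MvPolynomial (Fin k ⊕ Fin n) ℚ) i)) = Sum.elim u t := by
    funext i
    rcases i with i | i <;> simp
  rw [e1]
  refine and_congr Iff.rfl ?_
  have e2 : eval (Sum.elim t u) (∑ i, X (Sum.inr i) * X (Sum.inr i) : MvPolynomial (Fin k ⊕ Fin n) ℚ) =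
      ∑ i, u i * u i := by
    simp
  rw [e2, not_iff_not, Finset.sum_eq_zero_iff_of_nonneg fun i _ => mul_self_nonneg _]
  constructor
  · rintro rfl i -
    exact mul_zero _
  · intro h
    funext i
    exact mul_self_eq_zero.1 (h i (Finset.mem_univ i))

lemma dist_sum_lt {n k : ℕ} {x y : Fin n ⊕ Fin k → ℝ} {ε : ℝ} (hε : 0 < ε)
    (h1 : dist (x ∘ Sum.inl) (y ∘ Sum.inl) < ε) (h2 : dist (x ∘ Sum.inr) (y ∘ Sum.inr) < ε) : dist x y < ε := by
  rw [dist_pi_lt_iff hε] at h1 h2 ⊢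
  rintro (i | i)
  · exact h1 i
  · exact h2 i

lemma closure_eq {n k : ℕ} (hZ : ¬ IntDioph) {Γ : Subgroup (SLZ (n + 2))} (hΓ : Γ.index ≠ 0)
    {S : Set (Fin (n + 2) ⊕ Fin k → ℚ)} (hS : IsDioph S) (hinv : IsInvariant Γ S) :
    realClosure S = {x | x ∘ Sum.inr ∈ realClosure (nonzeroPart S)} ∪
      {x | (∀ i, x (Sum.inl i) = 0) ∧ x ∘ Sum.inr ∈ realClosure (zeroPart S)} := by
  have hcr : Continuous fun x : Fin (n + 2) ⊕ Fin k → ℝ => x ∘ Sum.inr :=
    continuous_pi fun i => continuous_apply _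
  refine Set.Subset.antisymm ?_ ?_
  · refine closure_minimal ?_ ?_
    · rintro x ⟨q, hq, hx⟩
      have e : q = Sum.elim (q ∘ Sum.inl) (q ∘ Sum.inr) := (Sum.elim_comp_inl_inr q).symm
      by_cases h0 : q ∘ Sum.inl = 0
      · right
        refine ⟨fun i => ?_, subset_closure ⟨q ∘ Sum.inr, ?_, fun i => hx _⟩⟩
        · rw [hx, show q (Sum.inl i) = 0 from congrFun h0 i, Rat.cast_zero]
        · rw [zeroPart, Set.mem_ofPred_eq, ← h0, ← e]
          exact hq
      · left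
        refine subset_closure ⟨q ∘ Sum.inr, ⟨q ∘ Sum.inl, h0, ?_⟩, fun i => hx _⟩
        rw [← e]
        exact hq
    · have hcz : IsClosed {x : Fin (n + 2) ⊕ Fin k → ℝ | ∀ i, x (Sum.inl i) = 0} := by
        rw [Set.ofPred_forall]
        exact isClosed_iInter fun i => isClosed_eq (continuous_apply _) continuous_const
      exact IsClosed.union (isClosed_closure.preimage hcr) (hcz.inter (isClosed_closure.preimage hcr))
  · rintro x (hx | ⟨hx0, hx⟩)
    · rw [realClosure, Metric.mem_closure_iff]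
      intro ε hε
      obtain ⟨y, ⟨t, ⟨u, hu0, hu⟩, hy⟩, hxy⟩ := Metric.mem_closure_iff.1 hx ε hε
      have h1 := dichotomy hZ hΓ (isDioph_fibre hS t) (fun g hg v hv => hinv g hg v t hv) hu hu0
      have h2 : x ∘ Sum.inl ∈ realClosure {u : Fin (n + 2) → ℚ | Sum.elim u t ∈ S} := by
        rw [h1]
        exact Set.mem_univ _
      obtain ⟨z, ⟨v, hv, hz⟩, hxz⟩ := Metric.mem_closure_iff.1 h2 ε hε
      refine ⟨Sum.elim z y, ⟨Sum.elim v t, hv, ?_⟩, dist_sum_lt hε ?_ ?_⟩
      · rintro (i | i)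
        · exact hz i
        · exact hy i
      · rw [Sum.elim_comp_inl]
        exact hxz
      · rw [Sum.elim_comp_inr]
        exact hxy
    · rw [realClosure, Metric.mem_closure_iff]
      intro ε hε
      obtain ⟨y, ⟨t, ht, hy⟩, hxy⟩ := Metric.mem_closure_iff.1 hx ε hε
      refine ⟨Sum.elim (0 : Fin (n + 2) → ℝ) y, ⟨Sum.elim (0 : Fin (n + 2) → ℚ) t, ht, ?_⟩, dist_sum_lt hε ?_ ?_⟩
      · rintro (i | i)
        · exact Rat.cast_zero.symm
        · exact hy i
      · rw [Sum.elim_comp_inl, show x ∘ Sum.inl = (0 : Fin (n + 2) → ℝ) from funext hx0, dist_self]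
        exact hε
      · rw [Sum.elim_comp_inr]
        exact hxy

/-- The set `ℤ^n × {0}`. -/
lemma isDioph_lattice {n k : ℕ} (hZ : IntDioph) (m : ℕ) (hm : m ≤ n) :
    IsDioph {x : Fin n ⊕ Fin k → ℚ | (∀ i : Fin n, (i : ℕ) < m → ∃ z : ℤ, x (Sum.inl i) = z) ∧
      ∀ j, x (Sum.inr j) = 0} := by
  induction m with
  | zero =>
    have h := isDioph_zeros (∑ j, X (Sum.inr j) * X (Sum.inr j) : MvPolynomial (Fin n ⊕ Fin k) ℚ)
    convert h using 1
    ext x
    have e2 : eval x (∑ i, X (Sum.inr i) * X (Sum.inr i) : MvPolynomial (Fin n ⊕ Fin k) ℚ) =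
        ∑ i, x (Sum.inr i) * x (Sum.inr i) := by
      simp
    rw [Set.mem_ofPred_eq, Set.mem_ofPred_eq, e2, Finset.sum_eq_zero_iff_of_nonneg fun i _ => mul_self_nonneg _]
    constructor
    · rintro ⟨-, h⟩ i -
      rw [h i, mul_zero]
    · intro h
      exact ⟨fun i hi => absurd hi (Nat.not_lt_zero _), fun j => mul_self_eq_zero.1 (h j (Finset.mem_univ j))⟩
  | succ m ih =>
    have h1 := ih (by omega)
    have h2 := hZ.preimage (κ := Fin n ⊕ Fin k) fun _ => X (Sum.inl ⟨m, hm⟩)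
    convert h1.inter h2 using 1
    ext x
    rw [Set.mem_inter_iff, Set.mem_ofPred_eq, Set.mem_ofPred_eq, Set.mem_ofPred_eq]
    constructor
    · rintro ⟨h3, h4⟩
      refine ⟨⟨fun i hi => h3 i (by omega), h4⟩, ?_⟩
      obtain ⟨z, hz⟩ := h3 ⟨m, hm⟩ (Nat.lt_succ_self m)
      exact ⟨z, by rw [eval_X]; exact hz⟩
    · rintro ⟨⟨h3, h4⟩, z, hz⟩
      refine ⟨fun i hi => ?_, h4⟩
      rcases Nat.lt_succ_iff_lt_or_eq.1 hi with h5 | h5
      · exact h3 i h5
      · have h6 : i = ⟨m, hm⟩ := Fin.ext h5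
        rw [eval_X] at hz
        exact ⟨z, by rw [h6]; exact hz⟩

/-- **Diophantine sets with arithmetic symmetry.** -/
theorem result :
    (∀ (n k : ℕ) (Γ : Subgroup (SLZ (n + 2))), Γ.FiniteIndex → ∀ S : Set (Fin (n + 2) ⊕ Fin k → ℚ),
      IsDioph S → IsInvariant Γ S → IntDioph ∨
        (IsDioph (nonzeroPart S) ∧ IsDioph (zeroPart S) ∧
          realClosure S = {x | x ∘ Sum.inr ∈ realClosure (nonzeroPart S)} ∪
            {x | (∀ i, x (Sum.inl i) = 0) ∧ x ∘ Sum.inr ∈ realClosure (zeroPart S)})) ∧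
    (∀ n k : ℕ, (¬ IntDioph ∧ ∀ S : Set (Fin k → ℚ), IsDioph S → IsSemialg (realClosure S)) ↔
      ∀ Γ : Subgroup (SLZ (n + 2)), Γ.FiniteIndex → ∀ S : Set (Fin (n + 2) ⊕ Fin k → ℚ),
        IsDioph S → IsInvariant Γ S → IsSemialg (realClosure S)) := by
  classical
  refine ⟨fun n k Γ hΓ S hS hinv => ?_, fun n k => ⟨?_, fun h => ⟨fun hZ => ?_, fun S hS => ?_⟩⟩⟩
  · by_cases hZ : IntDioph
    · exact Or.inl hZ
    · exact Or.inr ⟨isDioph_nonzeroPart hS, isDioph_zeroPart hS, closure_eq hZ hΓ.index_ne_zero hS hinv⟩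
  · rintro ⟨hZ, h⟩ Γ hΓ S hS hinv
    rw [closure_eq hZ hΓ.index_ne_zero hS hinv]
    refine IsSemialg.union ?_ ?_
    · have h1 := (h _ (isDioph_nonzeroPart hS)).preimage (κ := Fin (n + 2) ⊕ Fin k) fun j => X (Sum.inr j)
      convert h1 using 1
      ext x
      have e1 : (fun i => (aeval x (X (Sum.inr i) : MvPolynomial (Fin (n + 2) ⊕ Fin k) ℚ) : ℝ)) = x ∘ Sum.inr := by
        funext j
        rw [aeval_X]
        rfl
      rw [Set.mem_ofPred_eq, Set.mem_ofPred_eq, e1]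
    · have h1 := ((h _ (isDioph_zeroPart hS)).preimage (κ := Fin (n + 2) ⊕ Fin k) fun j => X (Sum.inr j)).inter_zeros
        (∑ i, X (Sum.inl i) * X (Sum.inl i))
      convert h1 using 1
      ext x
      rw [Set.mem_inter_iff, Set.mem_ofPred_eq, Set.mem_ofPred_eq, Set.mem_ofPred_eq, and_comm]
      have e1 : (fun i => (aeval x (X (Sum.inr i) : MvPolynomial (Fin (n + 2) ⊕ Fin k) ℚ) : ℝ)) = x ∘ Sum.inr := by
        funext j
        rw [aeval_X]
        rfl
      have e2 : (aeval x (∑ i, X (Sum.inl i) * X (Sum.inl i) : MvPolynomial (Fin (n + 2) ⊕ Fin k) ℚ) : ℝ) =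
          ∑ i, x (Sum.inl i) * x (Sum.inl i) := by
        simp
      rw [e1, e2, Finset.sum_eq_zero_iff_of_nonneg fun i _ => mul_self_nonneg _]
      refine and_congr Iff.rfl ?_
      constructor
      · intro h2 i _
        rw [h2 i, mul_zero]
      · intro h2 i
        exact mul_self_eq_zero.1 (h2 i (Finset.mem_univ i))
  · -- the lattice is not semialgebraic
    have h1 := isDioph_lattice (n := n + 2) (k := k) hZ (n + 2) le_rfl
    have h2 := h ⊤ inferInstance _ h1 (by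
      rintro g - u t ⟨h3, h4⟩
      refine ⟨fun i _ => ?_, h4⟩
      choose z hz using fun i : Fin (n + 2) => h3 i i.2
      refine ⟨(mat g).mulVec z i, ?_⟩
      have h5 : u = fun i => (z i : ℚ) := funext hz
      change act ℚ g u i = _
      rw [h5, act_intCast])
    refine h2.not_int (Sum.inl 0) ?_ ?_
    · intro x hx
      have h3 : IsClosed {x : Fin (n + 2) ⊕ Fin k → ℝ | ∃ z : ℤ, x (Sum.inl 0) = z} := by
        have h4 : IsClosed (Set.range ((↑) : ℤ → ℝ)) := Int.isClosedEmbedding_coe_real.isClosed_range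
        have h5 := h4.preimage (continuous_apply (Sum.inl 0 : Fin (n + 2) ⊕ Fin k) (A := fun _ => ℝ))
        convert h5 using 1
        ext x
        constructor
        · rintro ⟨z, hz⟩
          exact ⟨z, hz.symm⟩
        · rintro ⟨z, hz⟩
          exact ⟨z, hz.symm⟩
      refine closure_minimal ?_ h3 hx
      rintro y ⟨q, ⟨hq, -⟩, hy⟩
      obtain ⟨z, hz⟩ := hq 0 (by omega)
      exact ⟨z, by rw [hy, hz, Rat.cast_intCast]⟩
    · intro z
      refine subset_closure ⟨Pi.single (Sum.inl 0) (z : ℚ), ⟨fun i _ => ?_, fun j => ?_⟩, fun i => ?_⟩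
      · by_cases hi : i = 0
        · exact ⟨z, by rw [hi, Pi.single_eq_same]⟩
        · exact ⟨0, by rw [Pi.single_eq_of_ne fun h5 => hi (Sum.inl.inj h5), Int.cast_zero]⟩
      · rw [Pi.single_eq_of_ne Sum.inr_ne_inl]
      · rw [Pi.single_apply, Pi.single_apply]
        split_ifs <;> simp
  · -- sets in `ℚ^k`
    have h1 : IsDioph {x : Fin (n + 2) ⊕ Fin k → ℚ | (∀ i, x (Sum.inl i) = 0) ∧ x ∘ Sum.inr ∈ S} := by
      have h2 := isDioph_zeros (∑ i, X (Sum.inl i) * X (Sum.inl i) : MvPolynomial (Fin (n + 2) ⊕ Fin k) ℚ)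
      have h3 := hS.preimage (κ := Fin (n + 2) ⊕ Fin k) fun j => X (Sum.inr j)
      convert h2.inter h3 using 1
      ext x
      rw [Set.mem_inter_iff, Set.mem_ofPred_eq, Set.mem_ofPred_eq, Set.mem_ofPred_eq]
      have e1 : (fun i => eval x (X (Sum.inr i) : MvPolynomial (Fin (n + 2) ⊕ Fin k) ℚ)) = x ∘ Sum.inr := by
        funext j
        rw [eval_X]
        rfl
      have e2 : eval x (∑ i, X (Sum.inl i) * X (Sum.inl i) : MvPolynomial (Fin (n + 2) ⊕ Fin k) ℚ) =
          ∑ i, x (Sum.inl i) * x (Sum.inl i) := by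
        simp
      rw [e1, e2, Finset.sum_eq_zero_iff_of_nonneg fun i _ => mul_self_nonneg _]
      refine and_congr ?_ Iff.rfl
      constructor
      · intro h2 i _
        rw [h2 i, mul_zero]
      · intro h2 i
        exact mul_self_eq_zero.1 (h2 i (Finset.mem_univ i))
    have h2 := h ⊤ inferInstance _ h1 (by
      rintro g - u t ⟨h3, h4⟩
      have h5 : u = 0 := funext h3
      refine ⟨fun i => ?_, h4⟩
      rw [h5, act_zero]
      rfl)
    have h3 := h2.preimage (κ := Fin k) (Sum.elim (fun _ => 0) X)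
    convert h3 using 1
    ext t
    have e1 : (fun i => (aeval t ((Sum.elim (fun _ => 0) X : Fin (n + 2) ⊕ Fin k → MvPolynomial (Fin k) ℚ) i) : ℝ)) =
        Sum.elim (0 : Fin (n + 2) → ℝ) t := by
      funext i
      rcases i with i | i <;> simp
    rw [Set.mem_ofPred_eq, e1]
    constructor
    · intro ht
      rw [realClosure, Metric.mem_closure_iff]
      intro ε hε
      obtain ⟨y, ⟨q, hq, hy⟩, hty⟩ := Metric.mem_closure_iff.1 ht ε hε
      refine ⟨Sum.elim (0 : Fin (n + 2) → ℝ) y, ⟨Sum.elim (0 : Fin (n + 2) → ℚ) q, ⟨fun i => rfl, hq⟩, ?_⟩,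
        dist_sum_lt hε ?_ ?_⟩
      · rintro (i | i)
        · exact Rat.cast_zero.symm
        · exact hy i
      · rw [Sum.elim_comp_inl, Sum.elim_comp_inl, dist_self]
        exact hε
      · rw [Sum.elim_comp_inr, Sum.elim_comp_inr]
        exact hty
    · intro ht
      have hcr : Continuous fun x : Fin (n + 2) ⊕ Fin k → ℝ => x ∘ Sum.inr :=
        continuous_pi fun i => continuous_apply _
      have h4 : (Sum.elim (0 : Fin (n + 2) → ℝ) t : Fin (n + 2) ⊕ Fin k → ℝ) ∈ {x | x ∘ Sum.inr ∈ realClosure S} := by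
        refine closure_minimal ?_ (isClosed_closure.preimage hcr) ht
        rintro y ⟨q, ⟨-, hq⟩, hy⟩
        exact subset_closure ⟨q ∘ Sum.inr, hq, fun i => hy _⟩
      rw [Set.mem_ofPred_eq, Sum.elim_comp_inr] at h4
      exact h4

end Pool.Agent.Results.MP_42de19_nt.ArithmeticSymmetry
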