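import Pool.Agent.Q207.AJ.Asm
import Pool.Agent.Y120.H.Fml

/-!
# Density of the multiples of rational points in the real points of abelian varieties, for almost all integral fibres

Mazur's conjecture on abelian varieties: if `A` is a simple abelian variety over `ℚ` and `A(ℚ)` is infinite then `A(ℚ)` is dense in
a union of components of `A(ℝ)`; so the closure of `A(ℚ)` is semi-algebraic. For `dim A ≥ 2` this is known only for large rank
(Waldschmidt). We prove it, in a strong form, for almost all integral members of families.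

Let `A_{i,x}`, `i ≤ k`, be families of abelian varieties over open parts of the line over `ℚ`, near any rational point `x = 0`, where
they may degenerate, and let `P_{i,1}, …, P_{i,s_i}` be sections. For real `x > 0` near `0` the component of the origin of
`A_{i,x}(ℝ)` is the real torus `ℝ^{f_i} / Λ_i(x)`, where `f_i` is the dimension and `Λ_i(x)` is generated by the periods
`∫_{γ_b} ω_c` of a basis `γ_b` of the cycles which are invariant under complex conjugation; the point `P_{i,j}(x)` (or a multiple
in this component) is given by the integrals `∫_{Γ_j} ω_c` over real paths `Γ_j` from `0` to `P_{i,j}`. All these integrals are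
polynomials, with arbitrary complex coefficients, in `log x` and in G-functions with rational coefficients.

We prove: for almost all integral points `t` ALL points `P = (∑_j a_{i j} P_{i,j}(1 / t_i))_i`, `a_i ≠ 0` for all `i`, of the product
of the fibres `A_{i,1/t_i}` have the property that the multiples of `P` are dense in the component of the origin, even jointly
with any point of any fixed abelian variety, if the monodromy groups are irreducible and contain `-1` (in the Zariski
closure; for example symplectic groups), and no combination of the sections is torsion. In general the closure of the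
multiples contains the real subtorus which belongs to the translations in the monodromy group. The same holds for the real
Abel–Jacobi images of families of algebraic cycles in intermediate Jacobians.
-/

set_option autoImplicit false

open PowerSeries

namespace Pool.Agent.Results.MP_42de19_nt.DensityOnAbelianVarieties

/-! ### Families of G-functions -/

/-- an integer polynomial as a power series with rational coefficients -/
noncomputable def toQ (P : Polynomial ℤ) : PowerSeries ℚ := ((P.map (Int.castRingHom ℚ) : Polynomial ℚ) : PowerSeries ℚ)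

/-- the power series `P(u^e)` -/
noncomputable def atPow (e : ℕ) (P : Polynomial ℤ) : PowerSeries ℂ :=
  ((Polynomial.expand ℂ e (P.map (Int.castRingHom ℂ)) : Polynomial ℂ) : PowerSeries ℂ)

/-- the matrices `G_s` over `ℤ[x]` with `T^s y^(s) = G_s y` for all solutions `y` of `T y' = A y` -/
noncomputable def iter {r : ℕ} (T : Polynomial ℤ) (A : Fin r → Fin r → Polynomial ℤ) : ℕ → Fin r → Fin r → Polynomial ℤ
  | 0 => fun i j => if i = j then 1 else 0
  | s + 1 => fun i j => T * Polynomial.derivative (iter T A s i j) + ∑ l, iter T A s i l * A l j -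
      (s : Polynomial ℤ) * (Polynomial.derivative T * iter T A s i j)

/-- The system `T y' = A y` has a fundamental matrix of solutions of the form `u^(-M) ∑_n Φ_n(u) (log u)^n` with
`u^e = x` and convergent power series `Φ_n`: the point `0` is regular or a regular singularity with rational
exponents. -/
def QuasiUnipotent {r : ℕ} (T : Polynomial ℤ) (A : Fin r → Fin r → Polynomial ℤ) : Prop :=
  ∃ (e M : ℕ) (K : ℝ) (Φ : Matrix (Fin r) (Fin r) (Polynomial (PowerSeries ℂ))), 1 ≤ e ∧ Φ.det ≠ 0 ∧
    (∀ i j n m, ‖coeff m ((Φ i j).coeff n)‖ ≤ K ^ (m + 1)) ∧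
    ∀ i j n, atPow e T * (X * PowerSeries.derivative ℂ ((Φ i j).coeff n) +
        ((n : PowerSeries ℂ) + 1) * (Φ i j).coeff (n + 1) - (M : PowerSeries ℂ) * (Φ i j).coeff n) =
      (e : PowerSeries ℂ) * X ^ e * ∑ l, atPow e (A i l) * (Φ l j).coeff n

/-- `h_1, ..., h_r` are G-functions with rational coefficients which solve the differential system `T y' = A y`, with
the conditions of Siegel and Galochkin, and `0` is a regular point or a regular singularity with rational exponents of
the system. -/
structure GFamily {r : ℕ} (T : Polynomial ℤ) (A : Fin r → Fin r → Polynomial ℤ) (h : Fin r → PowerSeries ℚ) : Prop where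
  /-- the denominator is not zero -/
  T_ne : T ≠ 0
  /-- the differential equations -/
  ode : ∀ i, toQ T * PowerSeries.derivative ℚ (h i) = ∑ j, toQ (A i j) * h j
  /-- the coefficients have geometric growth -/
  size : ∃ C : ℝ, ∀ i m, |((coeff m (h i) : ℚ) : ℝ)| ≤ C ^ (m + 1)
  /-- the common denominators of the coefficients have geometric growth -/
  den : ∃ C : ℝ, ∀ m : ℕ, ∃ d : ℕ, 0 < d ∧ (d : ℝ) ≤ C ^ (m + 1) ∧ ∀ i, ∀ j ≤ m, ∃ a : ℤ, (d : ℚ) * coeff j (h i) = a
  /-- Galochkin's condition: the common denominators of the matrices `G_s / s!` have geometric growth -/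
  galochkin : ∃ C : ℝ, ∀ m : ℕ, ∃ d : ℕ, 0 < d ∧ (d : ℝ) ≤ C ^ (m + 1) ∧ ∀ s ≤ m, ∀ i j,
    ∃ H : Polynomial ℤ, (d : Polynomial ℤ) * iter T A s i j = (s.factorial : Polynomial ℤ) * H
  /-- the local exponents at `0` are rational and the singularity is regular -/
  regular : QuasiUnipotent T A

/-! ### Integrals and monodromy -/

section family
variable {r s f e : ℕ}

/-- The rows: the paths `Γ_1, …, Γ_s` which define the sections, the basis `γ_1, …, γ_f` of the invariant cycles, and further cycles
`γ'_1, …, γ'_e` which complete it to a basis of the rational homology (`e = f` for abelian varieties). -/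
abbrev Rows (s f e : ℕ) : Type := Fin s ⊕ (Fin f ⊕ Fin e)

/-- The matrix of the integrals at the point `x = 1 / y`. The columns belong to a basis `ω_1, …, ω_f` of the forms; the entries are
the polynomials `P a c` in `log y` and in the `h_l(1 / y)`. -/
noncomputable def integrals (h : Fin r → PowerSeries ℚ) (P : Rows s f e → Fin f → MvPolynomial (Option (Fin r)) ℂ) (y : ℝ) :
    Matrix (Rows s f e) (Fin f) ℂ :=
  Matrix.of fun a c => MvPolynomial.aeval (fun o : Option (Fin r) => o.elim ((Real.log y : ℝ) : ℂ)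
    fun l => ((∑' m : ℕ, ((coeff m (h l) : ℚ) : ℝ) * (1 / y) ^ m : ℝ) : ℂ)) (P a c)

/-- the value at `x = 1 / y` and at the matrix `Z` of a polynomial in the entries of a matrix over `ℂ[x]` -/
noncomputable def relAt (R : MvPolynomial (Rows s f e × Fin f) (Polynomial ℂ)) (y : ℝ) (Z : Matrix (Rows s f e) (Fin f) ℂ) : ℂ :=
  MvPolynomial.eval₂ (Polynomial.evalRingHom (1 / (y : ℂ))) (fun v => Z v.1 v.2) R

/-- The rational matrix `g`, acting on the paths and cycles, preserves all polynomial relations over `ℂ[x]` between the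
integrals. -/
def Preserves (h : Fin r → PowerSeries ℚ) (P : Rows s f e → Fin f → MvPolynomial (Option (Fin r)) ℂ)
    (g : Matrix (Rows s f e) (Rows s f e) ℚ) : Prop :=
  ∀ R : MvPolynomial (Rows s f e × Fin f) (Polynomial ℂ), (∀ᶠ y : ℝ in Filter.atTop, relAt R y (integrals h P y) = 0) →
    ∀ᶠ y : ℝ in Filter.atTop, relAt R y ((g.map fun q : ℚ => (q : ℂ)) * integrals h P y) = 0

/-- The symmetry `Γ_j ↦ Γ_j + ∑_b v_{j b} γ_b`, `γ_b ↦ ∑ u_{b b'} γ_b'` (`γ_b` all cycles of the basis of the homology) and its inverse preserve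
all polynomial relations over `ℂ[x]` between the integrals. All elements of the monodromy group have this
property, because the relations are preserved by analytic continuation, and also all rational points of its Zariski
closure. -/
def IsMonodromy (h : Fin r → PowerSeries ℚ) (P : Rows s f e → Fin f → MvPolynomial (Option (Fin r)) ℂ)
    (v : Matrix (Fin s) (Fin f ⊕ Fin e) ℚ) (u : Matrix (Fin f ⊕ Fin e) (Fin f ⊕ Fin e) ℚ) : Prop :=
  ∃ u' : Matrix (Fin f ⊕ Fin e) (Fin f ⊕ Fin e) ℚ, u * u' = 1 ∧ Preserves h P (Matrix.fromBlocks 1 v 0 u) ∧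
    Preserves h P (Matrix.fromBlocks 1 (-(v * u')) 0 u')

/-- The group of the symmetries is irreducible on the homology (absolutely: its span is the algebra of all matrices) and
contains an element which acts as `-1` on the homology; for example it contains the symplectic group. No combination
`∑ c_j Γ_j`, `c ≠ 0`, can be made invariant by adding a rational combination of the cycles: no combination of the sections is
torsion. -/
structure BigMonodromy (h : Fin r → PowerSeries ℚ) (P : Rows s f e → Fin f → MvPolynomial (Option (Fin r)) ℂ) : Prop where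
  irreducible : Submodule.span ℚ {u : Matrix (Fin f ⊕ Fin e) (Fin f ⊕ Fin e) ℚ | ∃ v, IsMonodromy h P v u} = ⊤
  neg : ∃ v, IsMonodromy h P v (-1)
  independent : ∀ c : Fin s → ℚ, c ≠ 0 → ¬ ∃ z : Fin f ⊕ Fin e → ℚ, ∀ v u, IsMonodromy h P v u →
    Matrix.vecMul c v + Matrix.vecMul z u = z

/-! ### Real tori -/

/-- The integrals over the paths `Γ_j` and the invariant cycles `γ_b` are real, and the vectors of the periods of the `γ_b` are
linearly independent: they generate a lattice in `ℝ^f`. -/
structure IsReal (M : Matrix (Rows s f e) (Fin f) ℂ) : Prop where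
  path : ∀ j c, (M (Sum.inl j) c).im = 0
  cycle : ∀ b c, (M (Sum.inr (Sum.inl b)) c).im = 0
  lattice : LinearIndependent ℝ fun b : Fin f => fun c => (M (Sum.inr (Sum.inl b)) c).re

/-- The real torus `ℝ^f / Λ`, where `Λ` is generated by the periods of the invariant cycles: the component of the origin of
the real points. -/
abbrev Torus (M : Matrix (Rows s f e) (Fin f) ℂ) : Type :=
  (Fin f → ℝ) ⧸ AddSubgroup.closure (Set.range fun b : Fin f => fun c => (M (Sum.inr (Sum.inl b)) c).re)

/-- the point `∑ a_j P_j` of the torus -/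
noncomputable def point (M : Matrix (Rows s f e) (Fin f) ℂ) (a : Fin s → ℤ) : Torus M :=
  QuotientAddGroup.mk fun c => ∑ j, (a j : ℝ) * (M (Sum.inl j) c).re

/-- The real subspace of `ℝ^f` generated by the vectors `∑_j a_j ∑_b w_{j b} γ_b`, where `w` is a rational matrix such that the
translation `Γ_j ↦ Γ_j + ∑_b w_{j b} γ_b` by invariant cycles preserves all relations. -/
noncomputable def moved (h : Fin r → PowerSeries ℚ) (P : Rows s f e → Fin f → MvPolynomial (Option (Fin r)) ℂ)
    (M : Matrix (Rows s f e) (Fin f) ℂ) (a : Fin s → ℤ) : Submodule ℝ (Fin f → ℝ) :=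
  Submodule.span ℝ {z | ∃ w : Matrix (Fin s) (Fin f) ℚ, Preserves h P (Matrix.fromBlocks 1 (Matrix.fromCols w 0) 0 1) ∧
    z = fun c => ∑ b, (∑ j, (a j : ℝ) * (w j b : ℝ)) * (M (Sum.inr (Sum.inl b)) c).re}

end family

section tori
variable {k m s₀ : ℕ} {r s f e : Fin k → ℕ}

/-- the point `((∑_j a_{i j} P_{i,j})_i, ∑_j a₀_j Q_j)` of the product of the tori with a fixed torus -/
noncomputable def total (M : ∀ i, Matrix (Rows (s i) (f i) (e i)) (Fin (f i)) ℂ) (Q : Fin s₀ → UnitAddTorus (Fin m))
    (a : ∀ i, Fin (s i) → ℤ) (a₀ : Fin s₀ → ℤ) : (∀ i, Torus (M i)) × UnitAddTorus (Fin m) :=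
  (fun i => point (M i) (a i), ∑ j, a₀ j • Q j)

/-- The conclusion for the fibres with the integrals `M_i`. For all `a` and `a₀` (1) the closure of the multiples of the
point `((∑_j a_{i j} P_{i,j})_i, ∑_j a₀_j Q_j)` contains the images of the subspaces generated by the translations, and (2) if the
monodromy groups are big and all `a_i` are different from `0` it is the product of all the tori and of the closure of the
multiples of `∑_j a₀_j Q_j`. -/
def IsDense (h : ∀ i, Fin (r i) → PowerSeries ℚ) (P : ∀ i, Rows (s i) (f i) (e i) → Fin (f i) → MvPolynomial (Option (Fin (r i))) ℂ)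
    (M : ∀ i, Matrix (Rows (s i) (f i) (e i)) (Fin (f i)) ℂ) (Q : Fin s₀ → UnitAddTorus (Fin m)) : Prop :=
  ∀ (a : ∀ i, Fin (s i) → ℤ) (a₀ : Fin s₀ → ℤ),
    (∀ z : ∀ i, Fin (f i) → ℝ, (∀ i, z i ∈ moved (h i) (P i) (M i) (a i)) →
      ((fun i => QuotientAddGroup.mk (z i), 0) : (∀ i, Torus (M i)) × UnitAddTorus (Fin m)) ∈
        closure (Set.range fun n : ℤ => n • total M Q a a₀)) ∧
    ((∀ i, BigMonodromy (h i) (P i)) → (∀ i, a i ≠ 0) →
      closure (Set.range fun n : ℤ => n • total M Q a a₀) =
        Set.univ ×ˢ closure (Set.range fun n : ℤ => n • ∑ j, a₀ j • Q j))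

end tori

theorem iter_eq {r : ℕ} (T : Polynomial ℤ) (A : Fin r → Fin r → Polynomial ℤ) (s : ℕ) :
    iter T A s = Pool.Agent.Y120.GH.itm T A s := by
  induction s with
  | zero => rfl
  | succ s ih =>
    funext i j
    rw [iter, Pool.Agent.Y120.GH.itm, ih]

theorem qu_eq {r : ℕ} {T : Polynomial ℤ} {A : Fin r → Fin r → Polynomial ℤ} (h : QuasiUnipotent T A) :
    Pool.Agent.Y120.GH.QU0 T A := by
  obtain ⟨e, M, K, Φ, he, hdet, hc, heq⟩ := h
  have he0 : e ≠ 0 := by omega
  refine ⟨e, he0, M, K, Φ, hc, fun i j n => ?_, hdet⟩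
  have h1 := heq i j n
  simp only [atPow] at h1
  rw [Pool.Agent.Y120.GH.expand_poly he0]
  simp only [Pool.Agent.Y120.GH.expand_poly he0]
  exact h1

theorem fam {r : ℕ} {T : Polynomial ℤ} {A : Fin r → Fin r → Polynomial ℤ} {h : Fin r → PowerSeries ℚ}
    (hG : GFamily T A h) (δ : ℕ) : Pool.Agent.Y120.R.Fam δ h :=
  ⟨hG.size, Pool.Agent.Y120.GH.family_main hG.T_ne hG.ode hG.size hG.den (by
    obtain ⟨C, hC⟩ := hG.galochkin
    refine ⟨C, fun m => ?_⟩
    obtain ⟨d, h1, h2, h3⟩ := hC m
    refine ⟨d, h1, h2, fun s hs i' j' => ?_⟩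
    rw [← iter_eq]
    exact h3 s hs i' j') (qu_eq hG.regular) δ⟩

/-- The property of the point `1 / t`: if the integrals over the paths and the invariant cycles are real and the periods generate
lattices, the multiples are dense as in `IsDense`. -/
def DenseAt {k m s₀ : ℕ} {r s f e : Fin k → ℕ} (h : ∀ i, Fin (r i) → PowerSeries ℚ)
    (P : ∀ i, Rows (s i) (f i) (e i) → Fin (f i) → MvPolynomial (Option (Fin (r i))) ℂ) (Q : Fin s₀ → UnitAddTorus (Fin m))
    (t : Fin k → ℕ) : Prop :=
  (∀ i, IsReal (integrals (h i) (P i) (t i : ℝ))) → IsDense h P (fun i => integrals (h i) (P i) (t i : ℝ)) Q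

theorem integrals_eq {r s f e : ℕ} (h : Fin r → PowerSeries ℚ) (P : Rows s f e → Fin f → MvPolynomial (Option (Fin r)) ℂ)
    (y : ℝ) : integrals h P y = Q207.AJ.pm h P y := rfl

theorem preserves_iff {r s f e : ℕ} {h : Fin r → PowerSeries ℚ} {P : Rows s f e → Fin f → MvPolynomial (Option (Fin r)) ℂ}
    {g : Matrix (Rows s f e) (Rows s f e) ℚ} : Preserves h P g ↔ Q207.AJ.Pr h P (Q207.AJ.cm g) := Iff.rfl

/-- the rows of the paths and of the invariant cycles -/
def sub {s f e : ℕ} : Fin s ⊕ Fin f → Rows s f e := Sum.map id Sum.inl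

theorem restrict {r s f e : ℕ} {h : Fin r → PowerSeries ℚ} {P : Rows s f e → Fin f → MvPolynomial (Option (Fin r)) ℂ}
    {w : Matrix (Fin s) (Fin f) ℚ} (hw : Preserves h P (Matrix.fromBlocks 1 (Matrix.fromCols w 0) 0 1)) :
    Q207.AJ.Pr h (fun a => P (sub a)) (Q207.AJ.shift w) := by
  refine Q207.AJ.Pr_restrict sub (preserves_iff.1 hw) fun Z a c => ?_
  rcases a with j | b
  · refine Eq.trans ?_ (Q207.AJ.shift_inl w (Z.submatrix sub id) j c).symm
    show (Q207.AJ.cm (Matrix.fromBlocks 1 (Matrix.fromCols w 0) 0 1 : Matrix (Rows s f e) (Rows s f e) ℚ) * Z) (Sum.inl j) c = _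
    rw [Matrix.mul_apply, Fintype.sum_sum_type, Fintype.sum_sum_type]
    simp only [Q207.AJ.cm, Matrix.map_apply, Matrix.fromBlocks_apply₁₁, Matrix.fromBlocks_apply₁₂, Matrix.fromCols_apply_inl,
      Matrix.fromCols_apply_inr, Matrix.zero_apply, Rat.cast_zero, zero_mul, Finset.sum_const_zero, add_zero, Matrix.submatrix_apply, id]
    congr 1
    rw [Finset.sum_eq_single j]
    · simp [sub]
    · intro j' _ hj
      rw [Matrix.one_apply_ne (Ne.symm hj)]
      simp
    · intro hj
      exact absurd (Finset.mem_univ _) hj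
  · refine Eq.trans ?_ (Q207.AJ.shift_inr w (Z.submatrix sub id) b c).symm
    show (Q207.AJ.cm (Matrix.fromBlocks 1 (Matrix.fromCols w 0) 0 1 : Matrix (Rows s f e) (Rows s f e) ℚ) * Z) (Sum.inr (Sum.inl b)) c = _
    rw [Matrix.mul_apply, Fintype.sum_sum_type]
    simp only [Q207.AJ.cm, Matrix.map_apply, Matrix.fromBlocks_apply₂₁, Matrix.fromBlocks_apply₂₂, Matrix.zero_apply, Rat.cast_zero,
      zero_mul, Finset.sum_const_zero, zero_add, Matrix.submatrix_apply, id]
    rw [Finset.sum_eq_single (Sum.inl b)]
    · simp [sub]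
    · intro j' _ hj
      rw [Matrix.one_apply_ne (Ne.symm hj)]
      simp
    · intro hj
      exact absurd (Finset.mem_univ _) hj

theorem moved_top {r s f e : ℕ} {h : Fin r → PowerSeries ℚ} {P : Rows s f e → Fin f → MvPolynomial (Option (Fin r)) ℂ}
    (hB : BigMonodromy h P) {M : Matrix (Rows s f e) (Fin f) ℂ} (hM : IsReal M) {a : Fin s → ℤ} (ha : a ≠ 0) : moved h P M a = ⊤ := by
  classical
  obtain ⟨j₀, hj₀⟩ : ∃ j, a j ≠ 0 := by
    by_contra hcon
    push Not at hcon
    exact ha (funext hcon)
  have hW : Q207.AJ.Wsub h P = ⊤ := Q207.AJ.all_trans hB.irreducible hB.neg hB.independent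
  rw [eq_top_iff, ← hM.lattice.span_eq_top_of_card_eq_finrank' (by simp), Submodule.span_le]
  rintro _ ⟨b, rfl⟩
  refine Submodule.subset_span ⟨Matrix.of fun j b' => if j = j₀ ∧ b' = b then (1 : ℚ) / a j₀ else 0, ?_, ?_⟩
  · have h1 : Matrix.fromCols (Matrix.of fun j b' => if j = j₀ ∧ b' = b then (1 : ℚ) / a j₀ else 0) 0 ∈ Q207.AJ.Wsub h P := by
      rw [hW]; trivial
    exact h1
  · funext c
    rw [Finset.sum_eq_single b]
    · have h1 : ∑ j, (a j : ℝ) * (((Matrix.of fun j b' => if j = j₀ ∧ b' = b then (1 : ℚ) / a j₀ else 0 : Matrix (Fin s) (Fin f) ℚ) j b : ℚ) : ℝ) = 1 := by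
        rw [Finset.sum_eq_single j₀]
        · have h2 : (a j₀ : ℝ) ≠ 0 := by exact_mod_cast hj₀
          rw [Matrix.of_apply, if_pos ⟨rfl, rfl⟩]
          push_cast
          field_simp
        · intro j _ hj
          rw [Matrix.of_apply, if_neg (fun h => hj h.1)]
          simp
        · intro hj
          exact absurd (Finset.mem_univ _) hj
      rw [h1, one_mul]
    · intro b' _ hb
      have h1 : ∑ j, (a j : ℝ) * (((Matrix.of fun j b' => if j = j₀ ∧ b' = b then (1 : ℚ) / a j₀ else 0 : Matrix (Fin s) (Fin f) ℚ) j b' : ℚ) : ℝ) = 0 := by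
        refine Finset.sum_eq_zero fun j _ => ?_
        rw [Matrix.of_apply, if_neg (fun h => hb h.2)]
        simp
      rw [h1, zero_mul]
    · intro hb
      exact absurd (Finset.mem_univ _) hb

/-- the closure of a cyclic subgroup which contains one of the factors -/
theorem closure_prod {X Y : Type} [AddCommGroup X] [TopologicalSpace X] [IsTopologicalAddGroup X] [AddCommGroup Y] [TopologicalSpace Y]
    [IsTopologicalAddGroup Y] (p : X) (q : Y) (h : ∀ z : X, (z, (0 : Y)) ∈ closure (Set.range fun n : ℤ => n • ((p, q) : X × Y))) :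
    closure (Set.range fun n : ℤ => n • ((p, q) : X × Y)) = Set.univ ×ˢ closure (Set.range fun n : ℤ => n • q) := by
  have hG : (Set.range fun n : ℤ => n • ((p, q) : X × Y)) = ((AddSubgroup.zmultiples ((p, q) : X × Y) : AddSubgroup (X × Y)) : Set (X × Y)) := by
    ext x
    rw [SetLike.mem_coe, AddSubgroup.mem_zmultiples_iff]
    exact Iff.rfl
  refine Set.Subset.antisymm ?_ ?_
  · refine closure_minimal ?_ (isClosed_univ.prod isClosed_closure)
    rintro _ ⟨n, rfl⟩
    exact ⟨trivial, subset_closure ⟨n, rfl⟩⟩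
  · rintro ⟨z, y⟩ ⟨-, hy⟩
    have h1 : ∀ n : ℤ, ((z, n • q) : X × Y) ∈ closure (Set.range fun n : ℤ => n • ((p, q) : X × Y)) := by
      intro n
      have h2 := h (z - n • p)
      rw [hG] at h2 ⊢
      have h3 : ((z, n • q) : X × Y) = (z - n • p, 0) + n • (p, q) := by
        refine Prod.ext ?_ ?_
        · show z = z - n • p + n • p
          rw [sub_add_cancel]
        · show n • q = 0 + n • q
          rw [zero_add]
      rw [h3]
      exact (AddSubgroup.topologicalClosure (AddSubgroup.zmultiples ((p, q) : X × Y))).add_mem h2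
        (subset_closure (AddSubgroup.mem_zmultiples_iff.2 ⟨n, rfl⟩))
    have h4 : closure (Set.range fun n : ℤ => n • q) ⊆
        (fun y : Y => ((z, y) : X × Y)) ⁻¹' closure (Set.range fun n : ℤ => n • ((p, q) : X × Y)) := by
      refine closure_minimal ?_ (isClosed_closure.preimage (by fun_prop))
      rintro _ ⟨n, rfl⟩
      exact h1 n
    exact h4 hy

/-- Let `h_i`, `i ≤ k`, be families of G-functions over `ℚ` (with the conditions of Siegel and Galochkin, regular singular with
rational exponents at `0`). For every degree `e₀` and all numbers of sections, dimensions, `m` and `s₀` there are `c > 0` and `C₀`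
such that for all matrices `P_i` of polynomials of degree at most `e₀` with complex coefficients, which give the integrals over
the paths and cycles as polynomials in `log x` and the `h_{i,l}(x)`, all points `Q_1, …, Q_{s₀}` of the torus `(ℝ / ℤ)^m` (the component
of the origin of the real points of any abelian variety of dimension `m`) and all boxes `∏ (x_i, x_i + N]` all but
`C₀ N^(k-1) ∑ (1 + N / (x_i + N)^c)` integral points `t` of the box have the property `DenseAt`: if the integrals at the points `1 / t_i` are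
real, the closure of the multiples of every point `((∑_j a_{i j} P_{i,j}(1 / t_i))_i, ∑_j a₀_j Q_j)` contains the real subtori which
belong to the translations in the monodromy groups; if the monodromy groups are big and all `a_i ≠ 0` it is the
product of the real tori `A_{i,1/t_i}(ℝ)⁰` and of the closure of the multiples of `∑_j a₀_j Q_j`. -/
theorem result (k m s₀ e₀ : ℕ) (r s f e : Fin k → ℕ) (T : Fin k → Polynomial ℤ) (A : ∀ i, Fin (r i) → Fin (r i) → Polynomial ℤ)
    (h : ∀ i, Fin (r i) → PowerSeries ℚ) (hG : ∀ i, GFamily (T i) (A i) (h i)) :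
    ∃ c C₀ : ℝ, 0 < c ∧ ∀ P : ∀ i, Rows (s i) (f i) (e i) → Fin (f i) → MvPolynomial (Option (Fin (r i))) ℂ,
      (∀ i a b, (P i a b).totalDegree ≤ e₀) → ∀ (Q : Fin s₀ → UnitAddTorus (Fin m)) (x : Fin k → ℕ) (N : ℕ), 1 ≤ N →
      (({t : Fin k → ℕ | (∀ i, x i < t i ∧ t i ≤ x i + N) ∧ ¬ DenseAt h P Q t}.ncard : ℕ) : ℝ) ≤
        C₀ * (N : ℝ) ^ (k - 1) * ∑ i, (1 + N / ((x i : ℝ) + N) ^ c) := by
  classical
  obtain ⟨c, C₀, hc, -, hmain⟩ := Q207.AJ.dens (s := s) (f := f) e₀ (s₀ * m + 1) h fun i δ => fam (hG i) δ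
  refine ⟨c, C₀, hc, fun P hP Q x N hN => ?_⟩
  have hq : ∀ (j : Fin s₀) (l : Fin m), ∃ y : ℝ, (y : UnitAddCircle) = Q j l := fun j l => QuotientAddGroup.mk_surjective (Q j l)
  choose q hq using hq
  set E := {t : Fin k → ℕ | (∀ i, x i < t i ∧ t i ≤ x i + N) ∧ ¬ DenseAt h P Q t} with hE
  have hfin : E.Finite := by
    refine (Set.finite_Iic (fun i : Fin k => x i + N)).subset ?_
    intro t ht i
    exact (ht.1 i).2
  rw [Set.ncard_eq_toFinset_card E hfin]
  refine hmain (fun i a => P i (sub a)) (fun i a b => hP i _ b) (Q207.AJ.Vq q) (Q207.AJ.Vq_rank q) (Q207.AJ.Vq_one q) x N hN _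
    fun t ht => ?_
  obtain ⟨hbox, hbad⟩ := hfin.mem_toFinset.1 ht
  refine ⟨hbox, ?_⟩
  unfold DenseAt at hbad
  push Not at hbad
  obtain ⟨hreal, hbad⟩ := hbad
  set M : ∀ i, Matrix (Rows (s i) (f i) (e i)) (Fin (f i)) ℂ := fun i => integrals (h i) (P i) (t i : ℝ) with hM
  set M' : ∀ i, Matrix (Fin (s i) ⊕ Fin (f i)) (Fin (f i)) ℂ := fun i => Q207.AJ.pm (h i) (fun a => P i (sub a)) (t i : ℝ) with hM'
  have hMM : ∀ i a c, M' i a c = M i (sub a) c := fun i a c => rfl
  have hrealM : ∀ i a c, (M' i a c).im = 0 := by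
    intro i a c
    rcases a with j | b
    · exact (hreal i).path j c
    · exact (hreal i).cycle b c
  have hdet : ∀ i, (Matrix.of fun b c => M' i (Sum.inr b) c : Matrix (Fin (f i)) (Fin (f i)) ℂ).det ≠ 0 := by
    intro i
    have h1 : IsUnit (Matrix.of fun b c => (M' i (Sum.inr b) c).re : Matrix (Fin (f i)) (Fin (f i)) ℝ) :=
      Matrix.linearIndependent_rows_iff_isUnit.1 (hreal i).lattice
    have h2 : (Matrix.of fun b c => M' i (Sum.inr b) c : Matrix (Fin (f i)) (Fin (f i)) ℂ) =
        (Matrix.of fun b c => (M' i (Sum.inr b) c).re : Matrix (Fin (f i)) (Fin (f i)) ℝ).map (algebraMap ℝ ℂ) := by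
      ext b c
      show M' i (Sum.inr b) c = (((M' i (Sum.inr b) c).re : ℝ) : ℂ)
      apply Complex.ext
      · simp
      · simp [hrealM i (Sum.inr b) c]
    rw [h2, ← RingHom.mapMatrix_apply, ← RingHom.map_det]
    have h3 := (Matrix.isUnit_iff_isUnit_det _).1 h1
    exact (h3.map (algebraMap ℝ ℂ)).ne_zero
  refine ⟨hdet, ?_⟩
  by_contra hcon
  push Not at hcon
  apply hbad
  -- the point is good
  have hgood : Q207.AJ.GoodD (fun i => {w : Fin (s i) → Fin (f i) → ℚ | Q207.AJ.Pr (h i) (fun a => P i (sub a)) (Q207.AJ.shift w)})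
      (Q207.AJ.Vq q) M' := by
    intro a u u₀ β hu₀ hβ hrel i w hw
    exact hcon a u u₀ β hu₀ hβ hrel i w hw
  intro a a₀
  have part1 : ∀ z : ∀ i, Fin (f i) → ℝ, (∀ i, z i ∈ moved (h i) (P i) (M i) (a i)) →
      ((fun i => QuotientAddGroup.mk (z i), 0) : (∀ i, Torus (M i)) × UnitAddTorus (Fin m)) ∈
        closure (Set.range fun n : ℤ => n • total M Q a a₀) := by
    intro z hz
    have h1 := Q207.AJ.asm _ q M' hgood hrealM (fun i => (hreal i).lattice) a a₀ z fun i => ?_
    · have h2 : (∑ j, a₀ j • (fun l => ((q j l : ℝ) : UnitAddCircle)) : UnitAddTorus (Fin m)) = ∑ j, a₀ j • Q j := by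
        refine Finset.sum_congr rfl fun j _ => ?_
        congr 1
        funext l
        exact hq j l
      rw [h2] at h1
      exact h1
    · refine Submodule.span_mono ?_ (hz i)
      rintro _ ⟨w, hw, rfl⟩
      exact ⟨w, restrict hw, rfl⟩
  refine ⟨part1, fun hB ha => ?_⟩
  refine closure_prod _ _ fun z => ?_
  choose z' hz' using fun i => QuotientAddGroup.mk_surjective (z i)
  have h1 := part1 z' fun i => by
    rw [moved_top (hB i) (hreal i) (ha i)]
    trivial
  have h2 : (fun i => (QuotientAddGroup.mk (z' i) : Torus (M i))) = z := funext hz'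
  rw [h2] at h1
  exact h1

end Pool.Agent.Results.MP_42de19_nt.DensityOnAbelianVarieties
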