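import Pool.Agent.Q35.TT.Two
import Pool.Agent.Q121.TT.Fs2
import Pool.Agent.Q182.TT.Chf

/-!
# K3 surfaces `w² = F(x, y)`: the closures of the sets of rational points are semialgebraic

`F` is a form over `ℚ` of bidegree `(4, 4)` on `ℙ¹ × ℙ¹` such that the curve `F = 0` is smooth, and
`X : w² = F(x, y)` is the double cover of `ℙ¹ × ℙ¹` branched along this curve, a K3 surface.

(1) For the affine charts of `X` the closure, in `ℝ³`, of the set of the rational points with `w ≠ 0`
is a semialgebraic set defined over `ℚ`, and so is the closure of the set of all rational points, if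
the branch curve has only finitely many rational points. (It has, by Faltings' theorem: it is a smooth
curve of genus `9`. This theorem is not in Mathlib.)

(2) The same holds for the closure, in `ℝᵐ`, of the set of the values of `m` rational functions, with
a common denominator, at the rational points of a product of such charts and an affine space.

(3) In each chart there are finitely many curves `x = a` and `y = b` and finitely many points such
that each connected set `U` of real points of `X` with `w ≠ 0` is contained in the closure of the set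
of the rational points, unless all rational points in `U` lie on these curves or over these points.

Idea of the proof. Through each point there are two curves of genus one, the fibres of the two
projections, and for `w ≠ 0` the difference of the points `(x, y, w)` and `(x, y, -w)` is a rational
point of their Jacobians. There are only finitely many `(x, y)` for which both are torsion points,
and only finitely many fibres of one projection contain infinitely many rational points which are
torsion for the other one: at all places the absolute value of the square of the partial derivative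
is bounded by the absolute value of `F` (times powers of the order and of the coordinates) if the
point is torsion in this direction, the order is at most a power of the logarithm of the height, and
the two partial derivatives have no common zero on the branch curve. The closure contains a
neighbourhood of each of the other rational points; the remaining ones lie on finitely many curves of
genus at most one, for which the closure is known.

Lemmas by helper53, helper68, helper121, helper137, helper149, helper151, helper164, helper182,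
helper193, helper208, helper224, helper237, helper275.
-/

set_option autoImplicit false

namespace Pool.Agent.Results.MP_42de19_nt.K3DoubleCovers

open MvPolynomial

/-- `F` is a form of bidegree `(4, 4)`: it has degree `4` in each pair of variables `(j, 0)`, `(j, 1)`,
the coordinates of the `j`-th factor of `ℙ¹ × ℙ¹`. -/
def IsForm (F : MvPolynomial (Fin 2 × Fin 2) ℚ) : Prop :=
  ∀ m ∈ F.support, ∀ j, m (j, 0) + m (j, 1) = 4

/-- The curve `F = 0` in `ℙ¹ × ℙ¹` is smooth. -/
def Smooth (F : MvPolynomial (Fin 2 × Fin 2) ℚ) : Prop :=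
  ∀ x : Fin 2 × Fin 2 → AlgebraicClosure ℚ, (∀ j, ∃ b, x (j, b) ≠ 0) → ∃ p, aeval x (pderiv p F) ≠ 0

/-- The point of `ℙ¹ × ℙ¹` with the affine coordinates `z`, in the chart in which the coordinates
`(j, ε j)` are `1`. -/
def point {R : Type} [One R] (ε : Fin 2 → Fin 2) (z : Fin 2 → R) (p : Fin 2 × Fin 2) : R :=
  if p.2 = ε p.1 then 1 else z p.1

/-- The rational points `(w, z)` of this chart of the surface `w² = F`. -/
def points (F : MvPolynomial (Fin 2 × Fin 2) ℚ) (ε : Fin 2 → Fin 2) : Set (Fin 3 → ℚ) :=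
  {u | u 0 ^ 2 = eval (point ε ![u 1, u 2]) F}

/-- The values of the rational functions `p_k / q` at the points of a product of sets of rational
points and an affine space. -/
def values {J κ : Type} (S : J → Set (Fin 3 → ℚ)) {m : ℕ}
    (p : Fin m → MvPolynomial ((J × Fin 3) ⊕ κ) ℚ) (q : MvPolynomial ((J × Fin 3) ⊕ κ) ℚ) :
    Set (Fin m → ℝ) :=
  {y | ∃ (x : J → Fin 3 → ℚ) (u : κ → ℚ), (∀ j, x j ∈ S j) ∧
    eval (Sum.elim (fun a => x a.1 a.2) u) q ≠ 0 ∧
    ∀ k, y k = ((eval (Sum.elim (fun a => x a.1 a.2) u) (p k) /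
      eval (Sum.elim (fun a => x a.1 a.2) u) q : ℚ) : ℝ)}

/-- The closure in `ℝ³` of a set of rational points. -/
def realClosure (S : Set (Fin 3 → ℚ)) : Set (Fin 3 → ℝ) :=
  closure {x | ∃ u ∈ S, x = fun i => (u i : ℝ)}

/-- Semialgebraic sets defined over `ℚ`: the finite unions of sets
`{p = 0, q₁ > 0, …, q_k > 0}`, where `p` and the `qᵢ` are polynomials with rational
coefficients. -/
def Semialgebraic {n : ℕ} (S : Set (Fin n → ℝ)) : Prop :=
  ∃ (m : ℕ) (P : Fin m → MvPolynomial (Fin n) ℚ) (G : Fin m → Finset (MvPolynomial (Fin n) ℚ)),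
    S = {x : Fin n → ℝ | ∃ j : Fin m, (aeval x (P j) : ℝ) = 0 ∧
      ∀ g ∈ G j, (0 : ℝ) < aeval x g}

section aux

open Pool.Agent.Q35.TT Pool.Agent.Q121.TT

lemma aeval_f {f : MvPolynomial (Fin 2) ℚ} (hf : ∀ j, f.degreeOf j ≤ 4) {R : Type} [CommRing R]
    [Algebra ℚ R] (s t : R) : aeval ![s, t] f = F4 (fun i j => algebraMap ℚ R (cf f i j)) ![1, s] ![1, t] := by
  conv_lhs => rw [rep f hf]
  simp only [Fin.sum_univ_five, F4, cx, bq]
  simp
  ring

lemma aeval_ch (F : MvPolynomial (Fin 2 × Fin 2) ℚ) (ε : Fin 2 → Fin 2) {R : Type} [CommRing R]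
    [Algebra ℚ R] (z : Fin 2 → R) : aeval z (ch F ε) = aeval (point ε z) F := by
  unfold ch
  rw [← AlgHom.comp_apply, comp_aeval]
  congr 2
  funext p
  unfold point
  split_ifs
  · exact map_one _
  · exact aeval_X _ _

lemma mem_points {F : MvPolynomial (Fin 2 × Fin 2) ℚ} {ε : Fin 2 → Fin 2}
    (hf : ∀ j, (ch F ε).degreeOf j ≤ 4) (u : Fin 3 → ℚ) :
    u ∈ points F ε ↔ u 0 ^ 2 = F4 (cf (ch F ε)) ![1, u 1] ![1, u 2] := by
  have h1 := aeval_ch F ε ![u 1, u 2]
  rw [aeval_f hf] at h1
  simp only [Algebra.algebraMap_self, RingHom.id_apply] at h1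
  rw [h1]
  rfl

end aux

theorem result_of (h1 : Pool.Agent.Q35.TT.S_SAW) (h2 : Pool.Agent.Q35.TT.S_SAC)
    (h3 : Pool.Agent.Q35.TT.S_CHF) :
    -- (1) the closures of the sets of rational points
    (∀ F : MvPolynomial (Fin 2 × Fin 2) ℚ, IsForm F → Smooth F → ∀ ε : Fin 2 → Fin 2,
      Semialgebraic (realClosure {u ∈ points F ε | u 0 ≠ 0}) ∧
      ({z : Fin 2 → ℚ | eval (point ε z) F = 0}.Finite →
        Semialgebraic (realClosure (points F ε)))) ∧
    -- (2) the closures of the sets of values of rational functions on products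
    (∀ (J κ : Type) [Finite J] [Finite κ] (F : J → MvPolynomial (Fin 2 × Fin 2) ℚ),
      (∀ j, IsForm (F j) ∧ Smooth (F j)) → ∀ (ε : J → Fin 2 → Fin 2) (m : ℕ)
        (p : Fin m → MvPolynomial ((J × Fin 3) ⊕ κ) ℚ) (q : MvPolynomial ((J × Fin 3) ⊕ κ) ℚ),
        Semialgebraic (closure (values (fun j => {u ∈ points (F j) (ε j) | u 0 ≠ 0}) p q)) ∧
        ((∀ j, {z : Fin 2 → ℚ | eval (point (ε j) z) (F j) = 0}.Finite) →
          Semialgebraic (closure (values (fun j => points (F j) (ε j)) p q)))) ∧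
    -- (3) connected sets of real points
    (∀ F : MvPolynomial (Fin 2 × Fin 2) ℚ, IsForm F → Smooth F → ∀ ε : Fin 2 → Fin 2,
      ∃ (E₁ E₂ : Set ℚ) (T : Set (ℚ × ℚ)), E₁.Finite ∧ E₂.Finite ∧ T.Finite ∧
        ∀ U : Set (Fin 3 → ℝ), IsPreconnected U →
          (∀ x ∈ U, x 0 ≠ 0 ∧ x 0 ^ 2 = aeval (point ε ![x 1, x 2]) F) →
          U ⊆ realClosure (points F ε) ∨
          ∀ u : Fin 3 → ℚ, (fun i => (u i : ℝ)) ∈ U → u 1 ∈ E₁ ∨ u 2 ∈ E₂ ∨ (u 1, u 2) ∈ T) := by
  have hdeg : ∀ F : MvPolynomial (Fin 2 × Fin 2) ℚ, IsForm F → ∀ ε : Fin 2 → Fin 2, ∀ j,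
      (Pool.Agent.Q35.TT.ch F ε).degreeOf j ≤ 4 := fun F hF ε => (h3 ℚ 2 F hF ε).1
  have hsm : ∀ F : MvPolynomial (Fin 2 × Fin 2) ℚ, IsForm F → Smooth F → ∀ ε : Fin 2 → Fin 2,
      Pool.Agent.Q35.TT.Smooth (Pool.Agent.Q121.TT.cf (Pool.Agent.Q35.TT.ch F ε)) :=
    fun F hF hs ε => Pool.Agent.Q121.TT.smooth (hdeg F hF ε) ((h3 ℚ 2 F hF ε).2.1 hs)
  have key : ∀ (J κ : Type) [Finite J] [Finite κ] (F : J → MvPolynomial (Fin 2 × Fin 2) ℚ),
      (∀ j, IsForm (F j) ∧ Smooth (F j)) → ∀ (ε : J → Fin 2 → Fin 2) (m : ℕ)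
        (p : Fin m → MvPolynomial ((J × Fin 3) ⊕ κ) ℚ) (q : MvPolynomial ((J × Fin 3) ⊕ κ) ℚ),
        Semialgebraic (closure (values (fun j => {u ∈ points (F j) (ε j) | u 0 ≠ 0}) p q)) ∧
        ((∀ j, {z : Fin 2 → ℚ | eval (point (ε j) z) (F j) = 0}.Finite) →
          Semialgebraic (closure (values (fun j => points (F j) (ε j)) p q))) := by
    intro J κ _ _ F hF ε m p q
    obtain ⟨g1, g2⟩ := h1 J κ (fun j => Pool.Agent.Q121.TT.cf (Pool.Agent.Q35.TT.ch (F j) (ε j)))
      (fun j => hsm _ (hF j).1 (hF j).2 _) m p q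
    constructor
    · have e : values (fun j => {u ∈ points (F j) (ε j) | u 0 ≠ 0}) p q =
          {y : Fin m → ℝ | ∃ (x : J → Fin 3 → ℚ) (u : κ → ℚ),
        (∀ j, x j 0 ≠ 0 ∧ x j 0 ^ 2 = Pool.Agent.Q35.TT.F4
          (Pool.Agent.Q121.TT.cf (Pool.Agent.Q35.TT.ch (F j) (ε j))) ![1, x j 1] ![1, x j 2]) ∧
        eval (Sum.elim (fun a => x a.1 a.2) u) q ≠ 0 ∧
        ∀ k, y k = ((eval (Sum.elim (fun a => x a.1 a.2) u) (p k) /
          eval (Sum.elim (fun a => x a.1 a.2) u) q : ℚ) : ℝ)} := by
        ext y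
        refine exists_congr fun x => exists_congr fun u => and_congr_left fun _ => ?_
        refine forall_congr' fun j => ?_
        rw [Set.mem_ofPred_eq, mem_points (hdeg _ (hF j).1 _), and_comm]
      rw [e]
      exact g1
    · intro hfin
      have e : values (fun j => points (F j) (ε j)) p q =
          {y : Fin m → ℝ | ∃ (x : J → Fin 3 → ℚ) (u : κ → ℚ),
        (∀ j, x j 0 ^ 2 = Pool.Agent.Q35.TT.F4
          (Pool.Agent.Q121.TT.cf (Pool.Agent.Q35.TT.ch (F j) (ε j))) ![1, x j 1] ![1, x j 2]) ∧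
        eval (Sum.elim (fun a => x a.1 a.2) u) q ≠ 0 ∧
        ∀ k, y k = ((eval (Sum.elim (fun a => x a.1 a.2) u) (p k) /
          eval (Sum.elim (fun a => x a.1 a.2) u) q : ℚ) : ℝ)} := by
        ext y
        refine exists_congr fun x => exists_congr fun u => and_congr_left fun _ => ?_
        refine forall_congr' fun j => ?_
        rw [mem_points (hdeg _ (hF j).1 _)]
      rw [e]
      refine g2 fun j => ?_
      refine ((hfin j).image fun z => (z 0, z 1)).subset ?_
      rintro ⟨s, t⟩ hz
      refine ⟨![s, t], ?_, rfl⟩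
      have h4 := aeval_f (hdeg _ (hF j).1 (ε j)) s t
      rw [aeval_ch] at h4
      simp only [Algebra.algebraMap_self, RingHom.id_apply] at h4
      exact h4.trans hz
  refine ⟨?_, key, ?_⟩
  · intro F hF hs ε
    have hval : ∀ S : Set (Fin 3 → ℚ), values (κ := Empty) (fun _ : Unit => S)
        (fun k : Fin 3 => X (Sum.inl ((), k))) 1 = {x | ∃ u ∈ S, x = fun i => (u i : ℝ)} := by
      intro S
      ext y
      constructor
      · rintro ⟨x, u, k1, -, k2⟩
        refine ⟨x (), k1 (), funext fun k => ?_⟩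
        rw [k2 k]
        simp
      · rintro ⟨u, k1, rfl⟩
        refine ⟨fun _ => u, fun e => e.elim, fun _ => k1, by simp, fun k => by simp⟩
    obtain ⟨g1, g2⟩ := key Unit Empty (fun _ => F) (fun _ => ⟨hF, hs⟩) (fun _ => ε) 3
      (fun k : Fin 3 => X (Sum.inl ((), k))) 1
    rw [hval] at g1 g2
    exact ⟨g1, fun h => g2 fun _ => h⟩
  · intro F hF hs ε
    obtain ⟨E₁, E₂, T, k1, k2, k3, k4⟩ := h2 _ (hsm F hF hs ε)
    refine ⟨E₁, E₂, T, k1, k2, k3, fun U hU hx => ?_⟩
    have e : {x : Fin 3 → ℝ | ∃ u : Fin 3 → ℚ,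
        u 0 ^ 2 = Pool.Agent.Q35.TT.F4 (Pool.Agent.Q121.TT.cf (Pool.Agent.Q35.TT.ch F ε))
          ![1, u 1] ![1, u 2] ∧ x = fun i => (u i : ℝ)} =
        {x | ∃ u ∈ points F ε, x = fun i => (u i : ℝ)} := by
      ext x
      refine exists_congr fun u => and_congr_left fun _ => ?_
      rw [mem_points (hdeg F hF ε)]
    have := k4 U hU (fun x hxU => ⟨(hx x hxU).1, by
      rw [(hx x hxU).2, ← aeval_ch, aeval_f (hdeg F hF ε)]
      rfl⟩)
    rw [e] at this
    exact this

/-- **K3 double covers of `ℙ¹ × ℙ¹`: the closures of the sets of rational points are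
semialgebraic.** -/
theorem result :
    -- (1) the closures of the sets of rational points
    (∀ F : MvPolynomial (Fin 2 × Fin 2) ℚ, IsForm F → Smooth F → ∀ ε : Fin 2 → Fin 2,
      Semialgebraic (realClosure {u ∈ points F ε | u 0 ≠ 0}) ∧
      ({z : Fin 2 → ℚ | eval (point ε z) F = 0}.Finite →
        Semialgebraic (realClosure (points F ε)))) ∧
    -- (2) the closures of the sets of values of rational functions on products
    (∀ (J κ : Type) [Finite J] [Finite κ] (F : J → MvPolynomial (Fin 2 × Fin 2) ℚ),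
      (∀ j, IsForm (F j) ∧ Smooth (F j)) → ∀ (ε : J → Fin 2 → Fin 2) (m : ℕ)
        (p : Fin m → MvPolynomial ((J × Fin 3) ⊕ κ) ℚ) (q : MvPolynomial ((J × Fin 3) ⊕ κ) ℚ),
        Semialgebraic (closure (values (fun j => {u ∈ points (F j) (ε j) | u 0 ≠ 0}) p q)) ∧
        ((∀ j, {z : Fin 2 → ℚ | eval (point (ε j) z) (F j) = 0}.Finite) →
          Semialgebraic (closure (values (fun j => points (F j) (ε j)) p q)))) ∧
    -- (3) connected sets of real points
    (∀ F : MvPolynomial (Fin 2 × Fin 2) ℚ, IsForm F → Smooth F → ∀ ε : Fin 2 → Fin 2,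
      ∃ (E₁ E₂ : Set ℚ) (T : Set (ℚ × ℚ)), E₁.Finite ∧ E₂.Finite ∧ T.Finite ∧
        ∀ U : Set (Fin 3 → ℝ), IsPreconnected U →
          (∀ x ∈ U, x 0 ≠ 0 ∧ x 0 ^ 2 = aeval (point ε ![x 1, x 2]) F) →
          U ⊆ realClosure (points F ε) ∨
          ∀ u : Fin 3 → ℚ, (fun i => (u i : ℝ)) ∈ U → u 1 ∈ E₁ ∨ u 2 ∈ E₂ ∨ (u 1, u 2) ∈ T) :=
  result_of Pool.Agent.Q35.TT.saw2 Pool.Agent.Q35.TT.sac2 Pool.Agent.Q182.TT.CHF.chf

end Pool.Agent.Results.MP_42de19_nt.K3DoubleCovers
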