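import Pool.Agent.Q35.ST.Real3

/-!
# The semialgebraic form of Mazur's conjecture for smooth hypersurfaces of multidegree (2, ..., 2)

`K` is a field algebraic over `ℚ`, for example a number field, with an embedding `K → ℝ`, and
`X = {F = 0} ⊆ ℙ^{n₁} × … × ℙ^{n_r}`, all `n_l ≥ 2`, is a smooth hypersurface of multidegree
`(2, …, 2)` over `K`: a Fano variety of dimension `n₁ + … + n_r - 1`. The main case is that of
products of projective planes, where `X` is a conic bundle in `r` ways; for `r = 2` it is a Verra
threefold. The real points of `X` need not be connected, and `X(K)` may be empty or may consist of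
special points only.

* The closure of `X(K)` in `X(ℝ)` is semialgebraic over `ℚ`.
* The closure of the set of the values of arbitrary rational functions over `K` at the `K`-points of
  products of such hypersurfaces and of an affine space is semialgebraic over `ℚ`. For example, let
  `F(t, z)` be a polynomial over `ℚ` which is, for each `l`, a quadratic polynomial in a block of at
  least two of the variables, such that the corresponding hypersurface `F = 0` in the product of
  projective spaces is smooth. Then the closure of the set of all rational `t` for which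
  `F(t, z) = 0` has a rational solution `z` is semialgebraic over `ℚ`.

Idea of the proof. By `Q35/ST/Opn` the closure of `X(K)` in `X(ℝ)` is open at its points which are
not special. (A point `x` is called special if for some nonempty set `S` of factors all partial
derivatives of `F` in the directions of the factors in `S` are constant multiples of `F` on the set
of all points with the same coordinates as `x` in the factors in `S`.) So it is relatively clopen in
the semialgebraic set of all real points which are not special, hence semialgebraic over `ℚ` there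
(`TH729/SQ`). The special points which are `K`-points lie over finitely many `K`-points of products
of some of the factors, and the fibres over these points are again smooth hypersurfaces of
multidegree `(2, …, 2)` in products with fewer factors; so one can use induction.
-/

set_option autoImplicit false

namespace Pool.Agent.Results.MP_42de19_nt.MultidegreeTwoSemialgebraic

open MvPolynomial

/-- Semialgebraic sets defined over `ℚ`: the finite unions of sets
`{p = 0, q₁ > 0, …, q_k > 0}`, where `p` and the `qᵢ` are polynomials with rational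
coefficients. -/
def Semialgebraic {ι : Type} (S : Set (ι → ℝ)) : Prop :=
  ∃ (m : ℕ) (P : Fin m → MvPolynomial ι ℚ) (G : Fin m → Finset (MvPolynomial ι ℚ)),
    S = {x : ι → ℝ | ∃ j : Fin m, (aeval x (P j) : ℝ) = 0 ∧
      ∀ g ∈ G j, (0 : ℝ) < aeval x g}

/-- The multihomogeneous coordinates of `ℙ^{n₁} × … × ℙ^{n_r}`. -/
abbrev Vars {r : ℕ} (n : Fin r → ℕ) : Type := (l : Fin r) × Fin (n l + 1)

/-- `F` is a form of degree two in the coordinates of each factor. -/
def MultiQuadratic {r : ℕ} {n : Fin r → ℕ} {K : Type} [Field K]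
    (F : MvPolynomial (Vars n) K) : Prop :=
  ∀ m ∈ F.support, ∀ l, ∑ i, m ⟨l, i⟩ = 2

/-- The coordinates of no factor are all zero. -/
def Proper {r : ℕ} {n : Fin r → ℕ} {K : Type} [Zero K] (z : Vars n → K) : Prop :=
  ∀ l, ∃ i, z ⟨l, i⟩ ≠ 0

/-- The hypersurface `F = 0` is smooth. -/
def Smooth {r : ℕ} {n : Fin r → ℕ} {K : Type} [Field K] (F : MvPolynomial (Vars n) K) : Prop :=
  ∀ z : Vars n → AlgebraicClosure K, Proper z → aeval z F = 0 → ∃ s, aeval z (pderiv s F) ≠ 0

/-- **The closure of the set of the rational points of smooth hypersurfaces of multidegree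
`(2, …, 2)` is semialgebraic over `ℚ`.** -/
theorem result (K : Type) [Field K] [CharZero K] [Algebra.IsAlgebraic ℚ K] (σ : K →+* ℝ) :
    -- (1) the closure of `X(K)` in the real points of the standard affine charts of `X`
    (∀ (r : ℕ) (n : Fin r → ℕ), (∀ l, 2 ≤ n l) → ∀ F : MvPolynomial (Vars n) K,
      MultiQuadratic F → Smooth F → ∀ b : ∀ l, Fin (n l + 1),
        Semialgebraic (closure {z : Vars n → ℝ | ∃ y : Vars n → K, (∀ l, y ⟨l, b l⟩ = 1) ∧
          eval y F = 0 ∧ ∀ s, z s = σ (y s)})) ∧
    -- (2) the closure of the set of the values of rational functions at the `K`-points of products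
    -- of such hypersurfaces and of affine spaces
    (∀ (ι κ : Type) [Finite ι] [Finite κ] (r : ι → ℕ) (n : ∀ j, Fin (r j) → ℕ)
      (F : ∀ j, MvPolynomial (Vars (n j)) K),
      (∀ j, (∀ l, 2 ≤ n j l) ∧ MultiQuadratic (F j) ∧ Smooth (F j)) →
      ∀ (m : Type) [Finite m] (p : m → MvPolynomial ((Σ j, Vars (n j)) ⊕ κ) K)
        (q : MvPolynomial ((Σ j, Vars (n j)) ⊕ κ) K),
        Semialgebraic (closure {t : m → ℝ | ∃ (y : ∀ j, Vars (n j) → K) (u : κ → K),
          (∀ j, Proper (y j) ∧ eval (y j) (F j) = 0) ∧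
          eval (Sum.elim (fun s => y s.1 s.2) u) q ≠ 0 ∧
          ∀ k, t k = σ (eval (Sum.elim (fun s => y s.1 s.2) u) (p k) /
            eval (Sum.elim (fun s => y s.1 s.2) u) q)})) := by
  open Pool.Agent.Q35.ST Pool.Agent.H581R2 Pool.Agent.TH729.SQ Pool.Agent.TH729.CC in
  have halg : ∀ r : K, IsAlgebraic ℚ (σ r) := by
    intro r
    have h := Algebra.IsAlgebraic.isAlgebraic (R := ℚ) r
    have hc : σ.comp (algebraMap ℚ K) = algebraMap ℚ ℝ := Subsingleton.elim _ _
    obtain ⟨p, hp, hp2⟩ := h
    refine ⟨p, hp, ?_⟩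
    rw [Polynomial.aeval_def, ← hc, ← Polynomial.hom_eval₂, ← Polynomial.aeval_def, hp2,
      map_zero]
  have hdense : DenseRange σ := by
    refine (Rat.denseRange_cast (𝕜 := ℝ)).mono ?_
    rintro _ ⟨a, rfl⟩
    exact ⟨(a : K), map_ratCast σ a⟩
  have hfr : ∀ {ι : Type} [Finite ι] {S : Set (ι → ℝ)}, SA S → Semialgebraic S := by
    intro ι _ S hS
    have : Fintype ι := Fintype.ofFinite ι
    let e := Fintype.equivFin ι
    obtain ⟨m, P, G, h⟩ := SA.frozen (S := {x : Fin (Fintype.card ι) → ℝ | (fun i => x (e i)) ∈ S})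
      (SAP.preimage (p := fun v => v ∈ S) hS (fun i => PF.coord _))
    classical
    refine ⟨m, fun j => rename e.symm (P j), fun j => (G j).image (rename e.symm), ?_⟩
    ext x
    have h1 := Set.ext_iff.1 h (fun i => x (e.symm i))
    have h2 : (fun i => (fun i => x (e.symm i)) (e i)) = x := by
      funext i; simp
    simp only [Set.mem_ofPred_eq, h2] at h1
    rw [h1]
    simp only [Set.mem_ofPred_eq, aeval_rename, Finset.mem_image, forall_exists_index, and_imp,
      forall_apply_eq_imp_iff₂]
    rfl
  have hmain : ∀ (r : ℕ) (n : Fin r → ℕ) (F : MvPolynomial (Vars n) K), (∀ l, 2 ≤ n l) ∧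
      MultiQuadratic F ∧ Smooth F → SA (closure (rK σ {y : Vars n → K | Proper y ∧ eval y F = 0})) := by
    rintro r n F ⟨hn, hF, hsm⟩
    have hF' : MH Set.univ (fun _ => 2) F := fun m hm l _ => hF m hm l
    have hsm' : Smth (map (algebraMap K (AlgebraicClosure K)) F) := by
      intro z hz hzF
      rw [eval_map] at hzF
      obtain ⟨s, hs⟩ := hsm z (fun l => hz l (Set.mem_univ _)) hzF
      exact ⟨s, by rw [pderiv_map, eval_map]; exact hs⟩
    have h1 := closure_SA' halg hdense hn hF' hsm'
    have h2 : {y : Vars n → K | Nz Set.univ y ∧ eval y F = 0} =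
        {y : Vars n → K | Proper y ∧ eval y F = 0} := by
      ext y
      exact and_congr_left (fun _ => ⟨fun h l => h l (Set.mem_univ _), fun h l _ => h l⟩)
    rwa [h2] at h1
  have hval : ∀ (ι κ : Type) [Finite ι] [Finite κ] (r : ι → ℕ) (n : ∀ j, Fin (r j) → ℕ)
      (F : ∀ j, MvPolynomial (Vars (n j)) K),
      (∀ j, (∀ l, 2 ≤ n j l) ∧ MultiQuadratic (F j) ∧ Smooth (F j)) →
      ∀ (m : Type) [Finite m] (p : m → MvPolynomial ((Σ j, Vars (n j)) ⊕ κ) K)
        (q : MvPolynomial ((Σ j, Vars (n j)) ⊕ κ) K),
        Semialgebraic (closure {t : m → ℝ | ∃ (y : ∀ j, Vars (n j) → K) (u : κ → K),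
          (∀ j, Proper (y j) ∧ eval (y j) (F j) = 0) ∧
          eval (Sum.elim (fun s => y s.1 s.2) u) q ≠ 0 ∧
          ∀ k, t k = σ (eval (Sum.elim (fun s => y s.1 s.2) u) (p k) /
            eval (Sum.elim (fun s => y s.1 s.2) u) q)}) := by
    intro ι κ _ _ r n F hF m _ p q
    exact hfr (values_mainK halg hdense (fun j => {y : Vars (n j) → K | Proper y ∧ eval y (F j) = 0})
      (fun j => hmain _ _ _ (hF j)) p q)
  refine ⟨?_, hval⟩
  intro r n hn F hF hsm b
  classical
  -- the chart: `y ⟨l, i⟩ / y ⟨l, b l⟩`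
  have h1 := hval Unit Empty (fun _ => r) (fun _ => n) (fun _ => F) (fun _ => ⟨hn, hF, hsm⟩)
    (Vars n) (fun s => X (Sum.inl ⟨(), s⟩) * ∏ l ∈ Finset.univ.erase s.1, X (Sum.inl ⟨(), ⟨l, b l⟩⟩))
    (∏ l, X (Sum.inl ⟨(), ⟨l, b l⟩⟩))
  convert h1 using 2
  ext z
  simp only [Set.mem_ofPred_eq]
  constructor
  · rintro ⟨y, hy1, hyF, hz⟩
    refine ⟨fun _ => y, fun e => e.elim, fun _ => ⟨fun l => ⟨b l, by
      show y ⟨l, b l⟩ ≠ 0
      rw [hy1]; exact one_ne_zero⟩, hyF⟩,
      ?_, fun s => ?_⟩
    · rw [map_prod]
      simp [hy1]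
    · rw [hz s]
      simp [hy1, map_prod]
  · rintro ⟨y, u, hy, hq, hz⟩
    obtain ⟨hyp, hyF⟩ := hy ()
    rw [map_prod] at hq
    have hb : ∀ l, y () ⟨l, b l⟩ ≠ 0 := by
      intro l hl
      apply hq
      apply Finset.prod_eq_zero (Finset.mem_univ l)
      simpa using hl
    have hF' : MH Set.univ (fun _ => 2) F := fun m hm l _ => hF m hm l
    refine ⟨fun s => (y () ⟨s.1, b s.1⟩)⁻¹ * y () s, fun l => inv_mul_cancel₀ (hb l), ?_, fun s => ?_⟩
    · rw [hF'.eval_scale (fun l => (y () ⟨l, b l⟩)⁻¹) (y ()), hyF, mul_zero]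
    · rw [hz s]
      congr 1
      simp only [map_mul, map_prod, eval_X, Sum.elim_inl]
      rw [← Finset.mul_prod_erase Finset.univ (fun l => y () ⟨l, b l⟩) (Finset.mem_univ s.1)]
      have h3 : ∏ l ∈ Finset.univ.erase s.1, y () ⟨l, b l⟩ ≠ 0 :=
        Finset.prod_ne_zero_iff.2 (fun l _ => hb l)
      have h4 := hb s.1
      field_simp

end Pool.Agent.Results.MP_42de19_nt.MultidegreeTwoSemialgebraic
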